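import Pool.Agent.Helper20.EQ.St2

/-! # EQ module WCD -/

set_option autoImplicit false

open MeasureTheory Set Filter Topology
open scoped ENNReal RealInnerProductSpace

namespace Pool.Agent.Helper83.EQ

open Pool.Agent.Helper20.RG Pool.Agent.Helper20.EQ
open Pool.Agent.Helper68.LM (Pl BB Bd Av HL ft fm DQ)

theorem wcd_self (b : ℤ) (x : Pl) : x ∈ DQ b x := fun _ => rfl

theorem wcd_sat (b : ℤ) (A : Set Pl) (x : Pl) (hx : x ∈ ⋃ y ∈ A, DQ b y) :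
    DQ b x ⊆ ⋃ y ∈ A, DQ b y := by
  simp only [mem_iUnion] at hx ⊢
  obtain ⟨y, hy, hxy⟩ := hx
  intro z hz
  simp only [mem_iUnion]
  exact ⟨y, hy, fun i => (hz i).trans (hxy i)⟩

theorem hWCD (hWAD : StWAD) (hWB : StWB) : StWCD := by
  intro n a γ r S G D₀ D₁ hn hD₀ hD₁ hS hr hG
  obtain ⟨U, hU⟩ : ∃ U : ℕ → Set Pl, U = fun i : ℕ =>
    ⋃ x ∈ {x | x ∈ G ∧ ¬ Dens (fun _ => S i) 1 x (r i) D₁}, DQ (a - ((i : ℤ) + 1) * γ) x := ⟨_, rfl⟩
  have hγ : ∀ i : ℕ, a - ((i : ℤ) + 1) * γ ≤ a - (i : ℤ) * γ := by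
    intro i
    have : (0 : ℤ) ≤ γ := Int.natCast_nonneg γ
    nlinarith
  have hB : ∀ i < n, volume (U i) ≤ ENNReal.ofReal (16 / D₁) * volume (S i) ∧
      ∀ x₀ : Pl, volume (U i ∩ DQ (a - (i : ℤ) * γ) x₀) ≤
        ENNReal.ofReal (16 * D₀ / D₁) * volume (DQ (a - (i : ℤ) * γ) x₀) := by
    intro i hi
    rw [hU]
    have h := hWB 1 (a - (i : ℤ) * γ) (a - ((i : ℤ) + 1) * γ) (r i) D₁ D₀ (fun _ => S i) G (hγ i)
      (hr i hi).1 (hr i hi).2 hD₁ hD₀ (fun _ _ => hS i hi)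
      (fun x hx => by
        rw [Finset.sum_range_one]
        exact hG i hi x hx)
    rw [Finset.sum_range_one] at h
    exact h
  have h1 := hWAD n a γ U (16 * D₀ / D₁) hn (by positivity) ?_ ?_
  · have hsub : {x | x ∈ G ∧ ∀ i < n, ¬ volume (S i ∩ Sq x (r i)) ≤ ENNReal.ofReal (D₁ * r i ^ 2)} ⊆
        {x | ∀ i < n, x ∈ U i} := by
      intro x hx i hi
      obtain ⟨hxG, hx⟩ := hx
      have h2 : ¬ Dens (fun _ => S i) 1 x (r i) D₁ := by
        unfold Dens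
        rw [Finset.sum_range_one]
        exact hx i hi
      rw [hU]
      simp only [mem_iUnion]
      exact ⟨x, ⟨hxG, h2⟩, wcd_self _ x⟩
    refine (measure_mono hsub).trans (h1.trans ?_)
    refine (mul_le_mul_right (hB 0 hn).1 _).trans (le_of_eq ?_)
    rw [← mul_assoc, ← ENNReal.ofReal_mul (by positivity)]
  · intro i hi x hx
    rw [hU] at hx ⊢
    exact wcd_sat _ _ x hx
  · intro i hi x
    exact (hB i hi).2 x

end Pool.Agent.Helper83.EQ
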