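import Pool.Agent.Helper20.EQ.St2

/-! # EQ module PPG -/

set_option autoImplicit false

open MeasureTheory Set Filter Topology
open scoped ENNReal RealInnerProductSpace

namespace Pool.Agent.Helper83.EQ

open Pool.Agent.Helper20.RG Pool.Agent.Helper20.EQ
open Pool.Agent.Helper68.LM (Pl BB Bd Av HL ft fm DQ)
open Pool.Agent.Helper68.EP (elt GapP)

theorem ppg_loc {C C' D : ℝ} {g : Pl → ℝ} {x : Pl} (h : C ≤ C') (hL : Loc C' D g x) : Loc C D g x := by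
  intro k
  refine (lintegral_mono_set ?_).trans (hL k)
  intro y hy
  have : C * (2 : ℝ) ^ k ≤ C' * (2 : ℝ) ^ k := mul_le_mul_of_nonneg_right h (by positivity)
  exact ⟨hy.1.trans this, hy.2.trans this⟩

theorem zp (n : ℤ) : (2 : ℝ) ^ n = (2 : ℝ) ^ (n : ℝ) := (Real.rpow_intCast 2 n).symm

theorem fp (n : ℤ) : (4 : ℝ) ^ n = (2 : ℝ) ^ (2 * (n : ℝ)) := by
  rw [Real.rpow_mul (by norm_num), Real.rpow_intCast]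
  norm_num

theorem np (n : ℕ) : (2 : ℝ) ^ n = (2 : ℝ) ^ (n : ℝ) := (Real.rpow_natCast 2 n).symm

theorem ppg_first (C₀ : ℝ) (hC₀ : 1 ≤ C₀) (u' ρ : ℕ) (P : ℝ) (hP : 0 ≤ P) (h8 : 8 * (ρ + 1) ≤ u') :
    C₀ * ((41 : ℕ) : ℝ) * (2 : ℝ) ^ u' * (2 : ℝ) ^ (-(3 / 2 * (u' : ℝ))) /
      ((2 : ℝ) ^ (-((ρ : ℤ) + 1))) ^ 2 * P ≤
    41 * C₀ * (2 : ℝ) ^ (-((u' : ℝ) / 4)) * P := by
  have h8' : 8 * ((ρ : ℝ) + 1) ≤ u' := by exact_mod_cast h8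
  refine mul_le_mul_of_nonneg_right ?_ hP
  have e1 : ((2 : ℝ) ^ (-((ρ : ℤ) + 1))) ^ 2 = (2 : ℝ) ^ (-(2 * ((ρ : ℝ) + 1))) := by
    rw [zp, ← Real.rpow_natCast, ← Real.rpow_mul (by norm_num)]
    congr 1
    push_cast
    ring
  rw [e1, np u']
  have e2 : C₀ * ((41 : ℕ) : ℝ) * (2 : ℝ) ^ (u' : ℝ) * (2 : ℝ) ^ (-(3 / 2 * (u' : ℝ))) /
      (2 : ℝ) ^ (-(2 * ((ρ : ℝ) + 1))) =
      41 * C₀ * (2 : ℝ) ^ ((u' : ℝ) + -(3 / 2 * (u' : ℝ)) - -(2 * ((ρ : ℝ) + 1))) := by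
    rw [Real.rpow_sub (by norm_num), Real.rpow_add (by norm_num)]
    push_cast
    ring
  rw [e2]
  refine mul_le_mul_of_nonneg_left ?_ (by positivity)
  refine Real.rpow_le_rpow_of_exponent_le (by norm_num) ?_
  linarith

theorem ppg_second (C₀ : ℝ) (hC₀ : 1 ≤ C₀) (L : ℕ) (hL : C₀ ≤ (2 : ℝ) ^ L) (p : ℝ) (hp : 1 < p) (hp3 : p < 3)
    (u u' t ρ : ℕ) (huu : u ≤ u') (h8 : (4 * L + 8) * (t + ρ + 1) ≤ u') :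
    C₀ * (2 : ℝ) ^ u * (C₀ * (4 : ℝ) ^ ((t : ℤ) - u' - ρ) /
        (((2 : ℝ) ^ (-((ρ : ℤ) + 1))) ^ 2 * (2 : ℝ) ^ (-(3 / 2 * (u' : ℝ))))) ^ (41 - 1) /
        (2 : ℝ) ^ (-(3 / 2 * (u' : ℝ))) / ((2 : ℝ) ^ (-((ρ : ℤ) + 1))) ^ 2 * (2 : ℝ) ^ (p * (u' : ℝ)) ≤
    41 * C₀ * (2 : ℝ) ^ (-(u' : ℝ)) := by
  have hL0 : (0 : ℝ) ≤ L := Nat.cast_nonneg L
  have ht0 : (0 : ℝ) ≤ t := Nat.cast_nonneg t
  have hρ0 : (0 : ℝ) ≤ ρ := Nat.cast_nonneg ρ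
  have hu0 : (0 : ℝ) ≤ u' := Nat.cast_nonneg u'
  have h8' : (4 * (L : ℝ) + 8) * ((t : ℝ) + ρ + 1) ≤ u' := by exact_mod_cast h8
  have hA : 4 * (L : ℝ) + 8 * ((t : ℝ) + 1) ≤ u' := by nlinarith [mul_nonneg hL0 ht0, mul_nonneg hL0 hρ0]
  have hB : 8 * ((ρ : ℝ) + 1) ≤ u' := by nlinarith [mul_nonneg hL0 ht0, mul_nonneg hL0 hρ0]
  have hu : (u : ℝ) ≤ u' := by exact_mod_cast huu
  have e1 : ((2 : ℝ) ^ (-((ρ : ℤ) + 1))) ^ 2 = (2 : ℝ) ^ (-(2 * ((ρ : ℝ) + 1))) := by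
    rw [zp, ← Real.rpow_natCast, ← Real.rpow_mul (by norm_num)]
    congr 1
    push_cast
    ring
  rw [e1, np u, fp]
  have e3 : C₀ * (2 : ℝ) ^ (2 * (((t : ℤ) - u' - ρ : ℤ) : ℝ)) /
        ((2 : ℝ) ^ (-(2 * ((ρ : ℝ) + 1))) * (2 : ℝ) ^ (-(3 / 2 * (u' : ℝ)))) ≤
      (2 : ℝ) ^ (-((u' : ℝ) / 4)) := by
    have e4 : C₀ * (2 : ℝ) ^ (2 * (((t : ℤ) - u' - ρ : ℤ) : ℝ)) /
        ((2 : ℝ) ^ (-(2 * ((ρ : ℝ) + 1))) * (2 : ℝ) ^ (-(3 / 2 * (u' : ℝ)))) =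
        C₀ * (2 : ℝ) ^ (2 * ((t : ℝ) + 1) - (u' : ℝ) / 2) := by
      rw [← Real.rpow_add (by norm_num), mul_div_assoc, ← Real.rpow_sub (by norm_num)]
      congr 2
      push_cast
      ring
    rw [e4]
    calc C₀ * (2 : ℝ) ^ (2 * ((t : ℝ) + 1) - (u' : ℝ) / 2)
        ≤ (2 : ℝ) ^ (L : ℝ) * (2 : ℝ) ^ (2 * ((t : ℝ) + 1) - (u' : ℝ) / 2) := by
          refine mul_le_mul_of_nonneg_right ?_ (by positivity)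
          rw [Real.rpow_natCast]
          exact hL
      _ = (2 : ℝ) ^ ((L : ℝ) + (2 * ((t : ℝ) + 1) - (u' : ℝ) / 2)) := by
          rw [Real.rpow_add (by norm_num)]
      _ ≤ (2 : ℝ) ^ (-((u' : ℝ) / 4)) := by
          refine Real.rpow_le_rpow_of_exponent_le (by norm_num) ?_
          linarith
  have e5 : (C₀ * (2 : ℝ) ^ (2 * (((t : ℤ) - u' - ρ : ℤ) : ℝ)) /
        ((2 : ℝ) ^ (-(2 * ((ρ : ℝ) + 1))) * (2 : ℝ) ^ (-(3 / 2 * (u' : ℝ))))) ^ (41 - 1) ≤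
      (2 : ℝ) ^ (-(10 * (u' : ℝ))) := by
    calc _ ≤ ((2 : ℝ) ^ (-((u' : ℝ) / 4))) ^ (41 - 1) := pow_le_pow_left₀ (by positivity) e3 _
      _ = (2 : ℝ) ^ (-(10 * (u' : ℝ))) := by
          rw [← Real.rpow_natCast, ← Real.rpow_mul (by norm_num)]
          congr 1
          push_cast
          ring
  calc C₀ * (2 : ℝ) ^ (u : ℝ) * (C₀ * (2 : ℝ) ^ (2 * (((t : ℤ) - u' - ρ : ℤ) : ℝ)) /
        ((2 : ℝ) ^ (-(2 * ((ρ : ℝ) + 1))) * (2 : ℝ) ^ (-(3 / 2 * (u' : ℝ))))) ^ (41 - 1) /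
        (2 : ℝ) ^ (-(3 / 2 * (u' : ℝ))) / (2 : ℝ) ^ (-(2 * ((ρ : ℝ) + 1))) * (2 : ℝ) ^ (p * (u' : ℝ))
      ≤ C₀ * (2 : ℝ) ^ (u : ℝ) * (2 : ℝ) ^ (-(10 * (u' : ℝ))) /
        (2 : ℝ) ^ (-(3 / 2 * (u' : ℝ))) / (2 : ℝ) ^ (-(2 * ((ρ : ℝ) + 1))) * (2 : ℝ) ^ (p * (u' : ℝ)) := by
        gcongr
    _ = C₀ * (2 : ℝ) ^ ((u : ℝ) + -(10 * (u' : ℝ)) - -(3 / 2 * (u' : ℝ)) - -(2 * ((ρ : ℝ) + 1)) +
          p * (u' : ℝ)) := by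
        rw [Real.rpow_add (by norm_num), Real.rpow_sub (by norm_num), Real.rpow_sub (by norm_num),
          Real.rpow_add (by norm_num)]
        ring
    _ ≤ 41 * C₀ * (2 : ℝ) ^ (-(u' : ℝ)) := by
        refine mul_le_mul (by linarith) ?_ (by positivity) (by positivity)
        refine Real.rpow_le_rpow_of_exponent_le (by norm_num) ?_
        nlinarith

theorem hPPG (hPPF : StPPF) : StPPG := by
  intro φ τ A p c hg hA hGap hp hp3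
  obtain ⟨C₀, hC₀, h⟩ := hPPF φ τ A p c hg hA hGap hp
  obtain ⟨L, hL⟩ : ∃ L : ℕ, C₀ ≤ (2 : ℝ) ^ L := by
    obtain ⟨L, hL⟩ := pow_unbounded_of_one_lt C₀ (by norm_num : (1 : ℝ) < 2)
    exact ⟨L, hL.le⟩
  refine ⟨41 * C₀, 4 * L + 8, by linarith, by omega, ?_⟩
  intro u u' t ρ g g' G hu huu h8 hBg hBg' h01 h01' hLoc
  have h8ρ : 8 * (ρ + 1) ≤ u' := by
    refine le_trans ?_ h8
    nlinarith
  have hη1 : (2 : ℝ) ^ (-((ρ : ℤ) + 1)) ≤ 1 := by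
    refine zpow_le_one_of_nonpos₀ (by norm_num) (by omega)
  have key := h u u' (ρ + 1) 41 ((2 : ℝ) ^ (-((ρ : ℤ) + 1))) ((4 : ℝ) ^ ((t : ℤ) - u' - ρ))
    ((2 : ℝ) ^ (-(3 / 2 * (u' : ℝ)))) g g' G hu huu (by norm_num) (by push_cast; exact le_rfl) hη1
    (by positivity) (by positivity) hBg hBg' h01 h01'
    (fun x hx => ppg_loc (by linarith) (hLoc x hx))
  refine key.trans (add_le_add ?_ ?_)
  · refine mul_le_mul_left (ENNReal.ofReal_le_ofReal ?_) _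
    exact ppg_first C₀ hC₀ u' ρ _ (by positivity) h8ρ
  · refine mul_le_mul_left (ENNReal.ofReal_le_ofReal ?_) _
    exact ppg_second C₀ hC₀ L hL p hp hp3 u u' t ρ huu h8

end Pool.Agent.Helper83.EQ
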